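import Mathlib
import Pool.Agent.W609.Cone.Exp

set_option autoImplicit false

/-!
# Nef classes exponentially close to the boundary of the positive cone

Let `L` be the list of the sides of the squares in the Euclidean subdivision of the rectangle with
sides `A` and `B`, `A ≥ 2 ^ 1000 B`. For very general points the class
`(1 + exp (-(A / B) ^ (1 / 10))) √(A B) H - ∑ L_j E_{g j}` is nonnegative on the closed cone of
curves; for `B = 1` this is the class `(1 + exp (-A ^ (1 / 10))) √A H - ∑ E_{g j}` (sum over `A`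
points). The classes can be composed (a point may be replaced by a group of points). Every plane
curve of degree `e` with `3 A B e ^ 2 < exp ((A / B) ^ (1 / 10))` satisfies the inequality
`∑ L_j mult_{g j} ≤ √(A B) e` without error.
-/

namespace Pool.Agent.Results.MP_309968_ag.ExponentialNef

open Pool.Agent.H932R3 Pool.Agent.H350R3 Pool.Agent.H350R3.GR Pool.Agent.W609.Cone

/-- `MultGE a F m`: the form `F` has multiplicity at least `m` at the point `(a 0 : a 1 : 1)`. -/
def MultGE (a : Fin 2 → ℂ) (F : MvPolynomial (Fin 3) ℂ) (m : ℕ) : Prop :=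
  ∀ s ∈ (MvPolynomial.aeval
    ![(MvPolynomial.X 0 : MvPolynomial (Fin 2) ℂ) + MvPolynomial.C (a 0),
      (MvPolynomial.X 1 : MvPolynomial (Fin 2) ℂ) + MvPolynomial.C (a 1),
      (1 : MvPolynomial (Fin 2) ℂ)] F).support, m ≤ s 0 + s 1

/-- The classes (in the coordinates degree, multiplicities) of the irreducible curves on the
blow-up of the plane at the points `p i = (p i 0 : p i 1 : 1)`: the class `(d; m)` of the proper
transform of an irreducible plane curve `F = 0` of degree `d` whose multiplicity at `p i` is exactly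
`m i`, and the classes `(0; -e_i)` of the exceptional curves. -/
def curveClasses {n : ℕ} (p : Fin n → Fin 2 → ℂ) : Set (ℝ × (Fin n → ℝ)) :=
  {v : ℝ × (Fin n → ℝ) | ∃ (F : MvPolynomial (Fin 3) ℂ) (d : ℕ) (m : Fin n → ℕ),
      F.IsHomogeneous d ∧ Irreducible F ∧
      (∀ i : Fin n, MultGE (p i) F (m i) ∧ ¬ MultGE (p i) F (m i + 1)) ∧
      v = ((d : ℝ), fun i => (m i : ℝ))} ∪
    {v : ℝ × (Fin n → ℝ) | ∃ i : Fin n,
      v = ((0 : ℝ), (Pi.single i (-1 : ℝ) : Fin n → ℝ))}

/-- The closed cone of curves. -/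
def curvCone {n : ℕ} (p : Fin n → Fin 2 → ℂ) : Set (ℝ × (Fin n → ℝ)) :=
  closure ((Submodule.span {c : ℝ // 0 ≤ c} (curveClasses p) : Set (ℝ × (Fin n → ℝ))))

theorem mult_swap_ones (k : ℕ) : Mult 1 k (List.replicate k 1) := by
  induction k with
  | zero => exact Mult.left 1
  | succ k ih =>
    rw [List.replicate_succ]
    exact Mult.small 1 (k + 1) _ one_pos (by omega) (by rw [Nat.add_sub_cancel]; exact ih)

theorem mult_ones (k : ℕ) : Mult k 1 (List.replicate k 1) := by
  induction k with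
  | zero => exact Mult.right 1
  | succ k ih =>
    rcases Nat.eq_zero_or_pos k with rfl | hk
    · exact mult_swap_ones 1
    rw [List.replicate_succ]
    exact Mult.big (k + 1) 1 _ one_pos (by omega) (by rw [Nat.add_sub_cancel]; exact ih)

theorem degree_pos {F : MvPolynomial (Fin 3) ℂ} {d : ℕ} (hFd : F.IsHomogeneous d)
    (hirr : Irreducible F) : 0 < d := by
  rcases Nat.eq_zero_or_pos d with rfl | hd
  · exfalso
    have h1 : F.totalDegree = 0 := by
      have := hFd.totalDegree_le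
      omega
    rw [MvPolynomial.totalDegree_eq_zero_iff_eq_C] at h1
    rw [h1] at hirr
    by_cases h2 : MvPolynomial.coeff 0 F = 0
    · rw [h2, map_zero] at hirr
      exact hirr.ne_zero rfl
    · exact hirr.not_isUnit ((isUnit_iff_ne_zero.2 h2).map MvPolynomial.C)
  · exact hd

theorem cone_le {n r : ℕ} {p : Fin n → Fin 2 → ℂ} {l : Fin r → ℝ} {g : Fin r → Fin n} {c : ℝ}
    (hl : ∀ j, 0 ≤ l j)
    (hc : ∀ (F : MvPolynomial (Fin 3) ℂ) (e : ℕ) (m : Fin n → ℕ), F.IsHomogeneous e → 0 < e →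
      F ≠ 0 → (∀ i, MultGE (p i) F (m i)) → ∑ j, l j * (m (g j) : ℝ) ≤ e * c) :
    ∀ x ∈ curvCone p, ∑ j, l j * x.2 (g j) ≤ c * x.1 := by
  intro x hx
  have hgen : ∀ v ∈ curveClasses p, ∑ j, l j * v.2 (g j) ≤ c * v.1 := by
    rintro v (⟨F, d, m, hFd, hirr, hm, rfl⟩ | ⟨i, rfl⟩)
    · have h1 := hc F d m hFd (degree_pos hFd hirr) hirr.ne_zero fun i => (hm i).1
      simp only
      linarith
    · simp only [mul_zero]
      refine Finset.sum_nonpos fun j _ => ?_
      refine mul_nonpos_of_nonneg_of_nonpos (hl j) ?_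
      by_cases hji : g j = i
      · rw [hji, Pi.single_eq_same]
        norm_num
      · rw [Pi.single_eq_of_ne hji]
  have hspan : ∀ v ∈ Submodule.span {c : ℝ // 0 ≤ c} (curveClasses p),
      ∑ j, l j * v.2 (g j) ≤ c * v.1 := by
    intro v hv
    refine Submodule.span_induction ?_ ?_ ?_ ?_ hv
    · exact fun v hv => hgen v hv
    · simp
    · intro a b _ _ ha hb
      simp only [Prod.snd_add, Pi.add_apply, Prod.fst_add, mul_add, Finset.sum_add_distrib]
      linarith
    · rintro ⟨a, ha⟩ v _ hv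
      have h1 : (⟨a, ha⟩ : {c : ℝ // 0 ≤ c}) • v = a • v := rfl
      rw [h1]
      simp only [Prod.smul_snd, Pi.smul_apply, Prod.smul_fst, smul_eq_mul]
      have h2 : ∑ j, l j * (a * v.2 (g j)) = a * ∑ j, l j * v.2 (g j) := by
        rw [Finset.mul_sum]
        exact Finset.sum_congr rfl fun j _ => by ring
      rw [h2]
      have := mul_le_mul_of_nonneg_left hv ha
      linarith
  have hcl : IsClosed {v : ℝ × (Fin n → ℝ) | ∑ j, l j * v.2 (g j) ≤ c * v.1} := by
    refine isClosed_le ?_ ?_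
    · exact continuous_finsetSum _ fun j _ =>
        continuous_const.mul ((continuous_apply (g j)).comp continuous_snd)
    · exact continuous_const.mul continuous_fst
  exact closure_minimal (fun v hv => hspan v hv) hcl hx

theorem noForm_ext {n e : ℕ} {L : List ℝ} {g : Fin L.length → Fin n}
    (hg : Function.Injective g) {m : Fin n → ℕ} {x : Fin L.length → Fin 2 → ℂ}
    (hx : NB.Emp (fun j => m (g j)) x e) :
    NoForm (ptJ (Function.extend g x 0) m) e := by
  refine (noForm_of_emp hx).anti ?_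
  unfold ptJ vIdeal
  refine le_iInf fun j => ?_
  have h2 := iInf_le (fun a => H932R2.cIdeal
    (fun _ : Fin 1 => (Function.extend g x 0 : Fin n → Fin 2 → ℂ) a 0)
    (Polynomial.C ((Function.extend g x 0 : Fin n → Fin 2 → ℂ) a 1)) (m a)) (g j)
  simp only [hg.extend_apply] at h2
  exact h2

theorem result :
    (∀ t : ℕ, Mult t 1 (List.replicate t 1)) ∧
    (∀ A B : ℕ, ∃ L, Mult A B L) ∧
    (∀ (E : ℝ) (L : List ℝ) (c : ℝ), Near E L c → (L.map fun t => t ^ 2).sum = c ^ 2) ∧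
    ∀ n : ℕ, ∃ f : ℕ → MvPolynomial (Fin n × Fin 2) ℂ, (∀ k, f k ≠ 0) ∧
      ∀ p : Fin n → Fin 2 → ℂ,
        (∀ k, MvPolynomial.eval (fun q : Fin n × Fin 2 => p q.1 q.2) (f k) ≠ 0) →
        (∀ (E : ℝ) (L : List ℝ) (c : ℝ), Near E L c →
          ∀ g : Fin L.length → Fin n, Function.Injective g →
          ∀ x ∈ curvCone p, ∑ j, L.get j * x.2 (g j) ≤ E * c * x.1) ∧
        ∀ (A B : ℕ) (L : List ℕ), 0 < B → 2 ^ 1000 * B ≤ A → Mult A B L →
        ∀ g : Fin L.length → Fin n, Function.Injective g →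
        ∀ (F : MvPolynomial (Fin 3) ℂ) (e : ℕ) (m : Fin n → ℕ),
          F.IsHomogeneous e → 0 < e → F ≠ 0 → (∀ i, MultGE (p i) F (m i)) →
          3 * (A * B * e ^ 2 : ℝ) < Real.exp (((A : ℝ) / B) ^ (1 / 10 : ℝ)) →
          ∑ j, (L.get j : ℝ) * m (g j) ≤ Real.sqrt (A * B) * e := by
  classical
  refine ⟨mult_ones, Mult.exists, fun E L c h => h.props.2.2.2.1, fun n => ?_⟩
  obtain ⟨f, hf, hf'⟩ := exists_conds_all (K := ℂ) n
  refine ⟨f, hf, fun p hp => ?_⟩
  have hnear : ∀ (E : ℝ) (L : List ℝ) (c : ℝ), Near E L c →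
      ∀ g : Fin L.length → Fin n, Function.Injective g →
      ∀ (F : MvPolynomial (Fin 3) ℂ) (e : ℕ) (m : Fin n → ℕ), F.IsHomogeneous e → F ≠ 0 →
        (∀ i, MultGE (p i) F (m i)) → ∑ j, L.get j * (m (g j) : ℝ) ≤ e * (E * c) := by
    intro E L c hS g hg F e m hF hF0 hm
    obtain ⟨_, _, _, _, hNf⟩ := hS.props
    by_contra hcon
    push Not at hcon
    obtain ⟨x, hx⟩ := hNf (fun j => m (g j)) e (by linarith)
    refine hF0 (hf' p hp e m ⟨_, noForm_ext hg hx⟩ F hF ?_)
    unfold ptJ vIdeal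
    rw [Ideal.mem_iInf]
    intro i
    exact mem_of_support (p := p i) (hm i)
  refine ⟨fun E L c hS g hg => ?_, fun A B L hB hAB hL g hg F e m hF he hF0 hm hs => ?_⟩
  · refine cone_le (fun j => (hS.props.2.2.1 _ (List.get_mem L j)).le) fun F e m hF _ hF0 hm => ?_
    exact hnear E L c hS g hg F e m hF hF0 hm
  · have hA : 0 < A := lt_of_lt_of_le (by positivity) hAB
    have h1 := Near.euclid A B L hB hAB hL
    clear hAB
    have hlen : (L.map fun m : ℕ => (m : ℝ)).length = L.length := by simp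
    have h2 := hnear _ _ _ h1 (fun j => g (Fin.cast hlen j))
      (fun a b hab => by
        have := hg hab
        exact Fin.cast_injective _ this) F e m hF hF0 hm
    have h3 : ∑ j, (L.map fun m : ℕ => (m : ℝ)).get j * (m (g (Fin.cast hlen j)) : ℝ) =
        ∑ j, (L.get j : ℝ) * (m (g j) : ℝ) := by
      refine Fintype.sum_equiv (finCongr hlen) _ _ fun j => ?_
      simp only [List.get_eq_getElem, List.getElem_map, finCongr_apply, Fin.val_cast]
    rw [h3] at h2
    obtain ⟨S, hS⟩ : ∃ S : ℕ, S = ∑ j, L.get j * m (g j) := ⟨_, rfl⟩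
    have hSR : ∑ j, (L.get j : ℝ) * (m (g j) : ℝ) = (S : ℝ) := by
      rw [hS]
      push_cast
      rfl
    rw [hSR] at h2 ⊢
    have hx : Real.exp (-(((A : ℝ) / B) ^ (1 / 10 : ℝ))) =
      (Real.exp (((A : ℝ) / B) ^ (1 / 10 : ℝ)))⁻¹ := Real.exp_neg _
    have hE1 : 1 ≤ Real.exp (((A : ℝ) / B) ^ (1 / 10 : ℝ)) :=
      Real.one_le_exp (Real.rpow_nonneg (by positivity) _)
    obtain ⟨Y, hY⟩ : ∃ Y, Y = Real.exp (((A : ℝ) / B) ^ (1 / 10 : ℝ)) := ⟨_, rfl⟩
    rw [hx, ← hY] at h2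
    rw [← hY] at hs hE1
    clear h1 hx hY
    have hY0 : 0 < Y := by linarith
    obtain ⟨ε, hε⟩ : ∃ ε, ε = Y⁻¹ := ⟨_, rfl⟩
    rw [← hε] at h2
    have hε0 : 0 < ε := by rw [hε]; positivity
    have hεY : ε * Y = 1 := by rw [hε]; field_simp
    have hε1 : ε ≤ 1 := by nlinarith
    obtain ⟨Q, hQ⟩ : ∃ Q : ℕ, Q = A * B * e ^ 2 := ⟨_, rfl⟩
    have hQR : (Q : ℝ) = A * B * e ^ 2 := by
      rw [hQ]
      push_cast
      ring
    have hQ0 : (0 : ℝ) ≤ Q := Nat.cast_nonneg Q
    have hsq : (Real.sqrt (A * B) * e) ^ 2 = (Q : ℝ) := by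
      rw [mul_pow, Real.sq_sqrt (by positivity), hQR]
    have h4 : (S : ℝ) ^ 2 ≤ (1 + ε) ^ 2 * Q := by
      calc (S : ℝ) ^ 2 ≤ (e * ((1 + ε) * Real.sqrt (A * B))) ^ 2 :=
            pow_le_pow_left₀ (Nat.cast_nonneg S) h2 2
        _ = (1 + ε) ^ 2 * (Real.sqrt (A * B) * e) ^ 2 := by ring
        _ = (1 + ε) ^ 2 * Q := by rw [hsq]
    have h5 : 3 * (ε * Q) < 1 := by
      rw [← hQR] at hs
      have h6 : 3 * (Q : ℝ) * ε < Y * ε := mul_lt_mul_of_pos_right hs hε0
      nlinarith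
    have h7 : (S : ℝ) ^ 2 < Q + 1 := by
      have h8 : ε ^ 2 * Q ≤ ε * Q := by
        refine mul_le_mul_of_nonneg_right ?_ hQ0
        nlinarith
      nlinarith
    have h9 : S ^ 2 ≤ Q := by
      have : ((S ^ 2 : ℕ) : ℝ) < ((Q + 1 : ℕ) : ℝ) := by
        push_cast
        exact h7
      have := Nat.cast_lt.1 this
      omega
    have h10 : (S : ℝ) ^ 2 ≤ (Real.sqrt (A * B) * e) ^ 2 := by
      rw [hsq]
      exact_mod_cast h9
    exact le_of_pow_le_pow_left₀ (by norm_num) (by positivity) h10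

end Pool.Agent.Results.MP_309968_ag.ExponentialNef
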